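import Pool.Agent.FGT.Stmts

/-!
Squad FGT (MP_c4a8aa_al), row EXT: a finitely additive function on the clopen sets of a compact
space extends to a measure on the sigma-algebra generated by them.
-/

namespace Pool.Agent.FGT.H94

open MeasureTheory Pool.Agent.FGT

universe v

theorem clopen_ring (X : Type v) [TopologicalSpace X] : IsSetRing {s : Set X | IsClopen s} where
  empty_mem := isClopen_empty
  union_mem := fun _ _ hs ht => IsClopen.union hs ht
  sdiff_mem := fun _ _ hs ht => IsClopen.diff hs ht

theorem ext : ExtStmt.{v} := by
  intro X _ _ m hm hadd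
  classical
  have hC := clopen_ring X
  have h0 : m ∅ = 0 := by
    have h := hadd ∅ ∅ isClopen_empty isClopen_empty (Set.disjoint_empty _)
    rw [Set.union_empty] at h
    linarith
  let c : AddContent ENNReal {s : Set X | IsClopen s} :=
    IsSetRing.addContent_of_union (fun s => ENNReal.ofReal (m s)) hC
      (by simp [h0])
      (by
        intro s t hs ht hd
        show ENNReal.ofReal (m (s ∪ t)) = ENNReal.ofReal (m s) + ENNReal.ofReal (m t)
        rw [hadd s t hs ht hd, ENNReal.ofReal_add (hm s hs) (hm t ht)])
  have hc : ∀ s, c s = ENNReal.ofReal (m s) := fun s => rfl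
  have hsig : c.IsSigmaSubadditive := by
    intro f hf hU
    have hcomp : IsCompact (⋃ i, f i) := (show IsClopen (⋃ i, f i) from hU).1.isCompact
    obtain ⟨t, ht⟩ := hcomp.elim_finite_subcover f (fun i => (show IsClopen (f i) from hf i).2)
      (le_refl _)
    have he : (⋃ i, f i) = ⋃ i ∈ t, f i := by
      apply Set.Subset.antisymm ht
      exact Set.iUnion₂_subset fun i _ => Set.subset_iUnion f i
    rw [he]
    refine (addContent_biUnion_le hC (fun n _ => hf n)).trans ?_
    exact ENNReal.sum_le_tsum t
  refine ⟨@AddContent.measure X {s : Set X | IsClopen s}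
    (MeasurableSpace.generateFrom {s : Set X | IsClopen s}) c hC.isSetSemiring le_rfl hsig, ?_⟩
  intro A hA
  have h := @AddContent.measure_eq X {s : Set X | IsClopen s} A
    (MeasurableSpace.generateFrom {s : Set X | IsClopen s}) c hC.isSetSemiring rfl hsig hA
  rw [h]
  exact hc A

end Pool.Agent.FGT.H94
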